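import Pool.Agent.H655R3.DiaMain

/-!
# The lower bound `d_n(E) ≥ n ^ (1/(n-1))` for all compact plane sets of capacity one

For every compact `E ⊂ ℂ` (connected or not) of transfinite diameter one and every `n ≥ 2` there
are `w₁, …, w_n ∈ E` with `∏_{μ<ν} |w_μ - w_ν| ≥ n ^ (n/2)`, i.e. `d_n(E) ≥ n ^ (1/(n-1))`.

Idea: divided differences at the Fekete points of `E`, used in each variable, bound every
coefficient of a homogeneous polynomial `G` in `n` variables by a polynomial factor times its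
maximum on `E ^ n`; applied to the powers of `G = ∏_{i<j} (w_i - w_j)` this shows that the maximum
of `|G|` on the closed unit polydisc is at most its maximum on `E ^ n`.
-/

set_option autoImplicit false

open Filter Topology Set

namespace Pool.Agent.Results.MP_9ec5dc_an.DiameterLowerBound

open Pool.Agent.H655R3.Dia

/-- Q1 is true: if `E ⊂ ℂ` is compact with transfinite diameter `lim d_n(E) = 1` and `n ≥ 2`, then
some `w₁, …, w_n ∈ E` satisfy `∏_{i<j} |w_i - w_j| ≥ n ^ (n/2)`, and `d_n(E) ≥ n ^ (1/(n-1))`. -/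
theorem result : ∀ E : Set ℂ, IsCompact E → HasTransfiniteDiam E 1 → ∀ n : ℕ, 2 ≤ n →
    (∃ w : Fin n → ℂ, (∀ i, w i ∈ E) ∧
      (n : ℝ) ^ ((n : ℝ) / 2) ≤ ∏ i : Fin n, ∏ j ∈ Finset.Ioi i, ‖w i - w j‖) ∧
    (n : ℝ) ^ ((1 : ℝ) / ((n : ℝ) - 1)) ≤ nDiam E n :=
  fun _ hE hd _ hn => main hE hd hn

end Pool.Agent.Results.MP_9ec5dc_an.DiameterLowerBound
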